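import Pool.Agent.helper84.NR.SpecW

/-!
# nrw:RHO: the number of the classes with an unshared neighbour of `x`
-/

set_option autoImplicit false

namespace Pool.Agent.helper84.NR

open scoped Classical
open Finset

theorem RHO_edge {V F : Type} (M : PMap V F) (x s : V) (A : F)
    (hAx : OnV M.toCyc A x) (hadj : Adj M.toCyc x s) (hAs : OnV M.toCyc A s)
    (e e' : Sym2 V) (hs : s ∈ e) (hs' : s ∈ e') (hx : x ∉ e) (hx' : x ∉ e')
    (hAe : OnE M.toCyc A e) (hAe' : OnE M.toCyc A e') : e = e' := by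
  obtain ⟨hinj, hv, he, hed, hper⟩ := h_IDX V F M.toCyc A (st M x A)
  have hu0 : M.bd A (st M x A + 0) = x := (h_WW0 V F M x A hAx).1
  have hul : M.bd A (st M x A + M.len A) = x := (h_WW0 V F M x A hAx).2
  obtain ⟨b, hb, hbs⟩ := hv s hAs
  have hE : OnE M.toCyc A s(x, s) := (h_EDG V F M).2 A x s hadj hAx hAs
  have hxs : x ≠ s := ((h_EDG V F M).1 A x s hE).2.2
  have hb0 : b ≠ 0 := by
    rintro rfl
    exact hxs (hu0.symm.trans hbs)
  have hb1 : b = 1 ∨ b = M.len A - 1 := by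
    have h := hed 0 b (Nat.pos_of_ne_zero hb0) hb (by
      rw [hu0, hbs]
      exact hE)
    rcases h with h | h
    · left; omega
    · right; exact h.2
  have key : ∀ f : Sym2 V, s ∈ f → x ∉ f → OnE M.toCyc A f →
      ∃ a, 1 ≤ a ∧ a + 1 < M.len A ∧ (b = a ∨ b = a + 1) ∧
        f = s(M.bd A (st M x A + a), M.bd A (st M x A + a + 1)) := by
    intro f hsf hxf hAf
    obtain ⟨a, ha, hf⟩ := he f hAf
    have ha0 : a ≠ 0 := by
      rintro rfl
      apply hxf
      rw [hf, hu0]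
      exact Sym2.mem_mk_left _ _
    have hal : a + 1 ≠ M.len A := by
      intro h
      apply hxf
      have h1 : M.bd A (st M x A + a + 1) = x := by
        rw [show st M x A + a + 1 = st M x A + M.len A by omega]
        exact hul
      rw [hf, h1]
      exact Sym2.mem_mk_right _ _
    refine ⟨a, Nat.pos_of_ne_zero ha0, by omega, ?_, hf⟩
    rw [hf] at hsf
    rcases Sym2.mem_iff.1 hsf with h | h
    · left; exact hinj b a hb ha (hbs.trans h)
    · right; exact hinj b (a + 1) hb (by omega) (hbs.trans h)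
  obtain ⟨a, a1, a2, a3, a4⟩ := key e hs hx hAe
  obtain ⟨c, c1, c2, c3, c4⟩ := key e' hs' hx' hAe'
  have hac : a = c := by omega
  rw [a4, c4, hac]

theorem RHO (hRL2 : RL2_stmt) : RHO_stmt := by
  intro V F _ _ M x y J hT
  have hdeg := h_DEG V F M x
  have hfin : Set.Finite {q : Quot (lk M (inU M x y J)) | Pure M x y J q ∧ SP M x y J q} :=
    Set.toFinite _
  rw [Set.ncard_eq_toFinset_card _ hfin]
  have h1 : 2 * hfin.toFinset.card ≤ ∑ q ∈ hfin.toFinset,
      (univ.filter (fun p : F × V => p.1 ∈ XM M x y ∧ RL M x y J q p.1 p.2)).card := by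
    rw [mul_comm, ← smul_eq_mul]
    exact Finset.card_nsmul_le_sum _ _ _ (fun q hq => by
      have h := hfin.mem_toFinset.1 hq
      exact hRL2 V F M x y J hT q h.1 h.2)
  have h2 : ∑ q ∈ hfin.toFinset,
      (univ.filter (fun p : F × V => p.1 ∈ XM M x y ∧ RL M x y J q p.1 p.2)).card =
      (hfin.toFinset.biUnion
        (fun q => univ.filter (fun p : F × V => p.1 ∈ XM M x y ∧ RL M x y J q p.1 p.2))).card := by
    rw [Finset.card_biUnion]
    intro q hq q' hq' hne
    refine Finset.disjoint_left.2 ?_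
    intro p hp hp'
    have hP := (hfin.mem_toFinset.1 (Finset.mem_coe.1 hq)).1
    have hP' := (hfin.mem_toFinset.1 (Finset.mem_coe.1 hq')).1
    obtain ⟨-, hAx, hadj, hAs, -, e, he1, he2, he3, g, hg, hgq⟩ := (Finset.mem_filter.1 hp).2
    obtain ⟨-, -, -, -, -, e', he1', he2', he3', g', hg', hgq'⟩ := (Finset.mem_filter.1 hp').2
    have hee : e = e' := RHO_edge M x p.2 p.1 hAx hadj hAs e e' he1 he1' he2 he2' he3 he3'
    subst hee
    obtain ⟨g0, -, -, hg0⟩ := M.two e p.1 he3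
    have hgg : g = g' := by
      rcases hg0 g hg with h | h
      · exact absurd (h ▸ hgq) (hP.1 p.1 hAx)
      · rcases hg0 g' hg' with h' | h'
        · exact absurd (h' ▸ hgq') (hP'.1 p.1 hAx)
        · rw [h, h']
    exact hne (by rw [← hgq, ← hgq', hgg])
  have h3 : (hfin.toFinset.biUnion
        (fun q => univ.filter (fun p : F × V => p.1 ∈ XM M x y ∧ RL M x y J q p.1 p.2))).card ≤
      (univ.filter (fun p : F × V => p.1 ∈ XM M x y ∧ (Adj M.toCyc x p.2 ∧ OnV M.toCyc p.1 p.2) ∧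
        ¬ ∃ B, OnV M.toCyc B y ∧ OnV M.toCyc B p.2)).card := by
    apply Finset.card_le_card
    intro p hp
    obtain ⟨q, -, hp⟩ := Finset.mem_biUnion.1 hp
    obtain ⟨hX, hAx, hadj, hAs, hns, -⟩ := (Finset.mem_filter.1 hp).2
    exact Finset.mem_filter.2 ⟨Finset.mem_univ _, hX, ⟨hadj, hAs⟩, hns⟩
  have h4 : (univ.filter (fun p : F × V => p.1 ∈ XM M x y ∧
        (Adj M.toCyc x p.2 ∧ OnV M.toCyc p.1 p.2) ∧
        ¬ ∃ B, OnV M.toCyc B y ∧ OnV M.toCyc B p.2)).card =
      ∑ A ∈ XM M x y, (univ.filter (fun v => (Adj M.toCyc x v ∧ OnV M.toCyc A v) ∧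
        ¬ ∃ B, OnV M.toCyc B y ∧ OnV M.toCyc B v)).card := by
    rw [Finset.card_eq_sum_card_fiberwise (f := Prod.fst) (t := XM M x y)
      (fun p hp => (Finset.mem_filter.1 hp).2.1)]
    apply Finset.sum_congr rfl
    intro A hA
    rw [← Finset.card_image_of_injective (univ.filter (fun v => (Adj M.toCyc x v ∧
      OnV M.toCyc A v) ∧ ¬ ∃ B, OnV M.toCyc B y ∧ OnV M.toCyc B v))
      (Prod.mk_right_injective A)]
    congr 1
    ext p
    simp only [Finset.mem_filter, Finset.mem_univ, true_and, Finset.mem_image]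
    constructor
    · rintro ⟨⟨-, h, h'⟩, rfl⟩
      exact ⟨p.2, ⟨h, h'⟩, rfl⟩
    · rintro ⟨v, ⟨h, h'⟩, rfl⟩
      exact ⟨⟨hA, h, h'⟩, rfl⟩
  have h5 : ∀ A ∈ XM M x y,
      (univ.filter (fun v => (Adj M.toCyc x v ∧ OnV M.toCyc A v) ∧
        ¬ ∃ B, OnV M.toCyc B y ∧ OnV M.toCyc B v)).card +
      ((sX M x y).filter (fun v => OnV M.toCyc A v)).card = 2 := by
    intro A hA
    have hAx : OnV M.toCyc A x := (Finset.mem_filter.1 hA).2.1
    rw [← hdeg.2.2.1 A hAx]
    rw [← Finset.card_union_of_disjoint]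
    · congr 1
      ext v
      simp only [sX, Finset.mem_union, Finset.mem_filter, Finset.mem_univ, true_and]
      tauto
    · rw [Finset.disjoint_left]
      intro v hv hv'
      have h := (Finset.mem_filter.1 hv).2.2
      have h' := (Finset.mem_filter.1 ((Finset.mem_filter.1 hv').1)).2.2
      exact h h'
  have h6 : ∑ A ∈ XM M x y, ((sX M x y).filter (fun v => OnV M.toCyc A v)).card =
      ∑ s ∈ sX M x y, ((XM M x y).filter (fun A => OnV M.toCyc A s)).card :=
    Finset.sum_card_bipartiteAbove_eq_sum_card_bipartiteBelow (fun A v => OnV M.toCyc A v)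
  have h7 : ∀ s ∈ sX M x y, ((XM M x y).filter (fun A => OnV M.toCyc A s)).card = 2 := by
    intro s hs
    obtain ⟨hadj, B, hBy, hBs⟩ := (Finset.mem_filter.1 hs).2
    rw [← hdeg.2.1 s hadj]
    congr 1
    ext A
    simp only [XM, Finset.mem_filter, Finset.mem_univ, true_and]
    constructor
    · rintro ⟨⟨h, -⟩, h'⟩
      exact ⟨h, h'⟩
    · rintro ⟨h, h'⟩
      exact ⟨⟨h, B, hBy, s, h', hBs⟩, h'⟩
  have h8 : ∑ A ∈ XM M x y, (univ.filter (fun v => (Adj M.toCyc x v ∧ OnV M.toCyc A v) ∧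
        ¬ ∃ B, OnV M.toCyc B y ∧ OnV M.toCyc B v)).card +
      ∑ A ∈ XM M x y, ((sX M x y).filter (fun v => OnV M.toCyc A v)).card =
      2 * (XM M x y).card := by
    rw [← Finset.sum_add_distrib, Finset.sum_congr rfl h5, Finset.sum_const, smul_eq_mul, mul_comm]
  have h9 : ∑ s ∈ sX M x y, ((XM M x y).filter (fun A => OnV M.toCyc A s)).card =
      2 * (sX M x y).card := by
    rw [Finset.sum_congr rfl h7, Finset.sum_const, smul_eq_mul, mul_comm]
  omega

end Pool.Agent.helper84.NR
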